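import Mathlib

set_option autoImplicit false

open SimpleGraph Finset

namespace Pool.Agent.Results.MP_dc0d33_co.BoundedDegree

/-- The Wiener polynomial: the sum of `X ^ d(u, v)` over the unordered pairs of distinct
vertices. The linear order only serves to list each pair once. -/
noncomputable def wiener {V : Type} [Fintype V] [LinearOrder V] (G : SimpleGraph V) :
    Polynomial ℂ :=
  ∑ p : V × V with p.1 < p.2, Polynomial.X ^ G.dist p.1 p.2

/-- The Wiener roots of the trees with at least two vertices and maximum degree at most `Δ`. -/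
def roots (Δ : ℕ) : Set ℂ :=
  {z | ∃ (V : Type) (_ : Fintype V) (_ : LinearOrder V) (G : SimpleGraph V),
    2 ≤ Fintype.card V ∧ G.IsTree ∧ (∀ v, (G.neighborSet v).ncard ≤ Δ) ∧ (wiener G).IsRoot z}

theorem two_wiener {V : Type} [Fintype V] [LinearOrder V] (G : SimpleGraph V) (z : ℂ) :
    2 * (wiener G).eval z = ∑ u, ∑ v, z ^ G.dist u v - Fintype.card V := by
  have h1 : (wiener G).eval z = ∑ u, ∑ v, if u < v then z ^ G.dist u v else 0 := by
    rw [wiener, Polynomial.eval_finsetSum, sum_filter, Fintype.sum_prod_type]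
    simp
  have h2 : ∀ u v, z ^ G.dist u v = ((if u < v then z ^ G.dist u v else 0) +
      if v < u then z ^ G.dist v u else 0) + if u = v then 1 else 0 := fun u v => by
    rcases lt_trichotomy u v with h | h | h
    · simp [h, h.ne, h.not_gt]
    · simp [h]
    · simp [h, h.ne', h.not_gt, G.dist_comm (u := u)]
  rw [sum_congr rfl fun u _ => sum_congr rfl fun v _ => h2 u v]
  simp only [sum_add_distrib]
  rw [sum_comm (f := fun u v => if v < u then z ^ G.dist v u else 0), ← h1]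
  simp
  ring

theorem dist_eq_of {V : Type} (G : SimpleGraph V) (δ : V → V → ℕ) (h0 : ∀ u, δ u u = 0)
    (h1 : ∀ u v w, G.Adj v w → δ u v ≤ δ u w + 1)
    (h2 : ∀ u v, ∃ p : G.Walk u v, p.length = δ u v) (u v : V) : G.dist u v = δ u v := by
  have h3 : ∀ (a b : V) (p : G.Walk a b), δ b a ≤ p.length := by
    intro a b p
    induction p with
    | nil => simp [h0]
    | cons h p ih => exact (h1 _ _ _ h).trans (by simpa using ih)
  obtain ⟨p, hp⟩ := h2 u v
  obtain ⟨p', hp'⟩ := p.reachable.exists_walk_length_eq_dist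
  exact le_antisymm (hp ▸ G.dist_le p) (hp' ▸ p'.length_reverse ▸ h3 _ _ p'.reverse)

theorem sum_deg {V : Type} [Fintype V] (G : SimpleGraph V) :
    ∑ v, (G.neighborSet v).ncard = 2 * Nat.card G.edgeSet := by
  classical
  rw [Nat.card_eq_fintype_card, ← edgeFinset_card, ← sum_degrees_eq_twice_card_edges]
  exact sum_congr rfl fun v _ => by
    rw [← card_neighborFinset_eq_degree, neighborFinset_def, Set.ncard_eq_toFinset_card']

section join

variable {V W : Type} (G : SimpleGraph V) (H : SimpleGraph W) (r : V) (s : W)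

/-- Two graphs joined by an edge. -/
def join : SimpleGraph (V ⊕ W) where
  Adj
    | .inl a, .inl b => G.Adj a b
    | .inr a, .inr b => H.Adj a b
    | .inl a, .inr b => a = r ∧ b = s
    | .inr b, .inl a => a = r ∧ b = s
  symm := ⟨by
    rintro (a | a) (b | b) h
    exacts [h.symm, h, h, h.symm]⟩
  loopless := ⟨by
    rintro (a | a) h
    exacts [G.irrefl h, H.irrefl h]⟩

/-- The distance in the joined graph. -/
noncomputable def jd : V ⊕ W → V ⊕ W → ℕ
  | .inl a, .inl b => G.dist a b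
  | .inr a, .inr b => H.dist a b
  | .inl a, .inr b => G.dist r a + 1 + H.dist s b
  | .inr b, .inl a => G.dist r a + 1 + H.dist s b

variable {G H}

theorem adj_le (hG : G.Connected) (u : V) {v w : V} (h : G.Adj v w) :
    G.dist u v ≤ G.dist u w + 1 :=
  (dist_eq_one_iff_adj.2 h.symm) ▸ hG.dist_triangle

theorem join_walk (hG : G.Connected) (hH : H.Connected) (u v : V ⊕ W) :
    ∃ p : (join G H r s).Walk u v, p.length = jd G H r s u v := by
  let i : G →g join G H r s := ⟨.inl, fun h => h⟩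
  let j : H →g join G H r s := ⟨.inr, fun h => h⟩
  have key : ∀ a b, ∃ p : (join G H r s).Walk (.inl a) (.inr b),
      p.length = G.dist r a + 1 + H.dist s b := fun a b => by
    obtain ⟨p, hp⟩ := hG.exists_walk_length_eq_dist a r
    obtain ⟨q, hq⟩ := hH.exists_walk_length_eq_dist s b
    have hrs : (join G H r s).Adj (.inl r) (.inr s) := ⟨rfl, rfl⟩
    refine ⟨(p.map i).append (.cons hrs (q.map j)), ?_⟩
    rw [Walk.length_append, Walk.length_cons, Walk.length_map, Walk.length_map, hp, hq,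
      G.dist_comm]
    ring
  rcases u with a | a <;> rcases v with b | b
  · obtain ⟨p, hp⟩ := hG.exists_walk_length_eq_dist a b
    exact ⟨p.map i, (Walk.length_map _ _).trans hp⟩
  · exact key a b
  · obtain ⟨p, hp⟩ := key b a
    exact ⟨p.reverse, p.length_reverse.trans hp⟩
  · obtain ⟨p, hp⟩ := hH.exists_walk_length_eq_dist a b
    exact ⟨p.map j, (Walk.length_map _ _).trans hp⟩

theorem join_dist (hG : G.Connected) (hH : H.Connected) (u v : V ⊕ W) :
    (join G H r s).dist u v = jd G H r s u v := by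
  refine dist_eq_of _ _ ?_ ?_ (join_walk r s hG hH) u v
  · rintro (a | a) <;> exact dist_self
  · rintro (a | a) (b | b) (c | c) h
    · exact adj_le hG a h
    · obtain ⟨rfl, rfl⟩ := h
      simp only [jd, G.dist_comm (u := a)]
      omega
    · obtain ⟨rfl, rfl⟩ := h
      simp only [jd, G.dist_comm (u := a), dist_self]
      omega
    · have := adj_le hH s h
      simp only [jd]
      omega
    · have := adj_le hG r h
      simp only [jd]
      omega
    · obtain ⟨rfl, rfl⟩ := h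
      simp only [jd, H.dist_comm (u := a), dist_self]
      omega
    · obtain ⟨rfl, rfl⟩ := h
      simp only [jd, H.dist_comm (u := a)]
      omega
    · exact adj_le hH a h

open Classical in
theorem join_deg_inl [Finite V] (a : V) : ((join G H r s).neighborSet (.inl a)).ncard =
    (G.neighborSet a).ncard + if a = r then 1 else 0 := by
  rw [← Set.ncard_image_of_injective (G.neighborSet a) (Sum.inl_injective (β := W))]
  split_ifs with h
  · rw [← Set.ncard_insert_of_notMem (a := Sum.inr s) (by simp)]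
    refine congrArg _ (Set.ext ?_)
    rintro (b | b) <;> simp [join, h]
  · refine congrArg _ (Set.ext ?_)
    rintro (b | b) <;> simp [join, h]

open Classical in
theorem join_deg_inr [Finite W] (a : W) : ((join G H r s).neighborSet (.inr a)).ncard =
    (H.neighborSet a).ncard + if a = s then 1 else 0 := by
  rw [← Set.ncard_image_of_injective (H.neighborSet a) (Sum.inr_injective (α := V))]
  split_ifs with h
  · rw [← Set.ncard_insert_of_notMem (a := Sum.inl r) (by simp)]
    refine congrArg _ (Set.ext ?_)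
    rintro (b | b) <;> simp [join, h]
  · refine congrArg _ (Set.ext ?_)
    rintro (b | b) <;> simp [join, h]

theorem join_tree [Fintype V] [Fintype W] (hG : G.IsTree) (hH : H.IsTree) :
    (join G H r s).IsTree := by
  classical
  obtain ⟨h1, h2⟩ := isTree_iff_connected_and_card.1 hG
  obtain ⟨h3, h4⟩ := isTree_iff_connected_and_card.1 hH
  have : Nonempty (V ⊕ W) := ⟨.inl r⟩
  refine isTree_iff_connected_and_card.2 ⟨⟨fun u v => ⟨(join_walk r s h1 h3 u v).choose⟩⟩, ?_⟩
  have h5 := sum_deg (join G H r s)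
  rw [Fintype.sum_sum_type] at h5
  simp only [join_deg_inl, join_deg_inr, sum_add_distrib, sum_deg,
    sum_ite_eq', mem_univ, if_true] at h5
  rw [Nat.card_sum]
  omega

end join

/-- A rooted tree with given root degree bound, depth function and pair function. -/
def Rl (q k : ℕ) (D U : ℂ → ℂ) : Prop :=
  ∃ (V : Type) (_ : Fintype V) (G : SimpleGraph V) (r : V), G.IsTree ∧
    (∀ v, (G.neighborSet v).ncard ≤ q + 1) ∧ (G.neighborSet r).ncard ≤ k ∧
    (∀ z, D z = ∑ v, z ^ G.dist r v) ∧ ∀ z, U z = ∑ u, ∑ v, z ^ G.dist u v - Fintype.card V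

variable {q k k' : ℕ} {D U D' U' : ℂ → ℂ}

theorem Rl.one : Rl q 0 (fun _ => 1) fun _ => 0 :=
  ⟨Unit, inferInstance, ⊥, (), IsTree.of_subsingleton, by simp, by simp, by simp, by simp⟩

theorem Rl.congr (h : Rl q k D U) (hk : k ≤ k') (h1 : ∀ z, D' z = D z) (h2 : ∀ z, U' z = U z) :
    Rl q k' D' U' := by
  obtain ⟨V, _, G, r, a1, a2, a3, a4, a5⟩ := h
  exact ⟨V, _, G, r, a1, a2, a3.trans hk, fun z => (h1 z).trans (a4 z),
    fun z => (h2 z).trans (a5 z)⟩

theorem Rl.join (h : Rl q k D U) (h' : Rl q k' D' U') (hk : k ≤ q) (hk' : k' ≤ q) :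
    Rl q (k + 1) (fun z => D z + z * D' z) fun z => U z + U' z + 2 * z * D z * D' z := by
  classical
  obtain ⟨V, _, G, r, a1, a2, a3, a4, a5⟩ := h
  obtain ⟨W, _, H, s, b1, b2, b3, b4, b5⟩ := h'
  refine ⟨V ⊕ W, inferInstance, BoundedDegree.join G H r s, .inl r, join_tree r s a1 b1, ?_, ?_,
    fun z => ?_, fun z => ?_⟩
  · rintro (a | a)
    · rw [join_deg_inl]
      split_ifs with h
      exacts [by rw [h]; omega, a2 a]
    · rw [join_deg_inr]
      split_ifs with h
      exacts [by rw [h]; omega, b2 a]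
  · rw [join_deg_inl, if_pos rfl]
    omega
  · simp only [Fintype.sum_sum_type, join_dist r s a1.1 b1.1, jd, a4, b4, dist_self, mul_sum,
      pow_add, pow_zero, pow_one, one_mul]
  · have e : ∑ a, ∑ b, z ^ (G.dist r a + 1 + H.dist s b) = z * D z * D' z := by
      rw [a4, b4, mul_assoc, sum_mul_sum, mul_sum]
      refine sum_congr rfl fun a _ => ?_
      rw [mul_sum]
      exact sum_congr rfl fun b _ => by ring
    simp only [Fintype.sum_sum_type, join_dist r s a1.1 b1.1, jd, sum_add_distrib,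
      Fintype.card_sum, Nat.cast_add]
    rw [sum_comm (f := fun b a => z ^ (G.dist r a + 1 + H.dist s b)), e, a5, b5]
    ring

theorem Rl.att (h : Rl q k D U) (h' : Rl q q D' U') (m : ℕ) (hk : k + m ≤ q) :
    Rl q (k + m) (fun z => D z + m * z * D' z)
      fun z => U z + m * U' z + 2 * m * z * D z * D' z + m * (m - 1) * z ^ 2 * D' z ^ 2 := by
  induction m with
  | zero => exact h.congr le_rfl (by simp) (by simp)
  | succ m ih =>
    refine ((ih (by omega)).join h' (by omega) le_rfl).congr le_rfl (fun z => ?_) fun z => ?_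
    all_goals
      push_cast
      ring

/-- `Φ` counts the free places below a tree by depth. -/
def Ex (q : ℕ) (Φ : ℂ → ℂ) : Prop := ∃ D U, Rl q q D U ∧ ∀ z, 1 + (q * z - 1) * D z = Φ z

theorem Ex.node {Φ1 Φ2 Φ3 Φ : ℂ → ℂ} (h1 : Ex q Φ1) (h2 : Ex q Φ2) (h3 : Ex q Φ3) {a b c : ℕ}
    (h : a + b + c = q) (e : ∀ z, Φ z = z * (a * Φ1 z + b * Φ2 z + c * Φ3 z)) : Ex q Φ := by
  obtain ⟨D1, U1, a1, e1⟩ := h1
  obtain ⟨D2, U2, a2, e2⟩ := h2
  obtain ⟨D3, U3, a3, e3⟩ := h3
  refine ⟨_, _, (((Rl.one.att a1 a (by omega)).att a2 b (by omega)).att a3 c (by omega)).congr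
    (by omega) (fun _ => rfl) fun _ => rfl, fun z => ?_⟩
  rw [e, ← e1, ← e2, ← e3, ← h]
  push_cast
  ring

theorem Ex.pow (p : ℕ) : Ex q fun z => (q * z) ^ (p + 1) := by
  induction p with
  | zero => exact ⟨_, _, Rl.one.congr q.zero_le (fun _ => rfl) fun _ => rfl, fun z => by ring⟩
  | succ p ih => exact ih.node ih ih (a := q) (b := 0) (c := 0) rfl fun z => by push_cast; ring

theorem Ex.two (hq : 0 < q) (p K : ℕ) : ∀ a b : ℕ, a + b = q ^ K →
    Ex q fun z => z ^ K * (q * z) * (a + b * (q * z) ^ p) := by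
  induction K with
  | zero =>
    intro a b h
    obtain ⟨rfl, rfl⟩ | ⟨rfl, rfl⟩ : a = 1 ∧ b = 0 ∨ a = 0 ∧ b = 1 := by
      rw [pow_zero] at h
      omega
    · simpa using Ex.pow (q := q) 0
    · simpa [pow_succ'] using Ex.pow (q := q) p
  | succ K ih =>
    intro a b h
    obtain ⟨d, e, a', b', h1, h2, h3⟩ : ∃ d e a' b', d + 1 + e = q ∧ a' + b' = q ^ K ∧
        a = d * q ^ K + a' := by
      rcases Nat.eq_zero_or_pos b with rfl | hb
      · obtain ⟨d, rfl⟩ := Nat.exists_eq_add_of_lt hq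
        exact ⟨d, 0, (0 + d + 1) ^ K, 0, by omega, rfl, by rw [← add_zero a, h]; ring⟩
      · have h4 : a / q ^ K < q := Nat.div_lt_of_lt_mul (by rw [← pow_succ]; omega)
        have h5 := Nat.mod_lt a (pow_pos hq K)
        exact ⟨a / q ^ K, q - 1 - a / q ^ K, a % q ^ K, q ^ K - a % q ^ K, by omega, by omega,
          (Nat.div_add_mod' _ _).symm⟩
    have h4 : b = b' + e * q ^ K := by
      rw [pow_succ', h3] at h
      have : q * q ^ K = d * q ^ K + q ^ K + e * q ^ K := by
        rw [← add_one_mul, ← add_mul, h1]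
      omega
    refine (ih (q ^ K) 0 rfl).node (ih a' b' h2) (ih 0 _ (zero_add _)) h1 fun z => ?_
    rw [h3, h4]
    push_cast
    ring

theorem Rl.diff (h : Rl q k D U) : Differentiable ℂ D ∧ Differentiable ℂ U := by
  obtain ⟨V, _, G, r, -, -, -, a4, a5⟩ := h
  rw [funext a4, funext a5]
  constructor <;> fun_prop

theorem Ex.tower {Φ : ℂ → ℂ} (h : Ex q Φ) : ∃ G : ℂ → ℂ, Differentiable ℂ G ∧ ∀ n : ℕ,
    ∃ D U, Rl q q D U ∧ ∀ z, 1 + (q * z - 1) * D z = (q * z) ^ n * Φ z ∧
      ((q * z) ^ 2 - q) * (1 - q) * (q * z - 1) ^ 2 * U z =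
        (1 - q) * q * (q - 1) * z ^ 2 * Φ z ^ 2 * ((q * z) ^ n) ^ 2 +
        ((q * z) ^ 2 - q) * (1 - q) * 2 * z * Φ z * (q * z) ^ n +
        ((q * z) ^ 2 - q) * q * z * (2 - (q + 1) * z) + G z * q ^ n := by
  obtain ⟨D, U, a1, e1⟩ := h
  obtain ⟨d1, d2⟩ := a1.diff
  have d3 : Differentiable ℂ Φ := by
    rw [← funext e1]
    fun_prop
  refine ⟨fun z => ((q * z) ^ 2 - q) * (1 - q) * (q * z - 1) ^ 2 * U z -
    ((1 - q) * q * (q - 1) * z ^ 2 * Φ z ^ 2 + ((q * z) ^ 2 - q) * (1 - q) * 2 * z * Φ z +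
      ((q * z) ^ 2 - q) * q * z * (2 - (q + 1) * z)), by fun_prop, fun n => ?_⟩
  induction n with
  | zero => exact ⟨D, U, a1, fun z => ⟨by rw [e1]; ring, by ring⟩⟩
  | succ n ih =>
    obtain ⟨D', U', b1, e2⟩ := ih
    refine ⟨_, _, (Rl.one.att b1 q (by omega)).congr (by omega) (fun _ => rfl) fun _ => rfl,
      fun z => ?_⟩
    obtain ⟨e3, e4⟩ := e2 z
    refine ⟨by linear_combination q * z * e3, ?_⟩
    linear_combination q * e4 + ((q * z) ^ 2 - q) * (1 - q) * (2 * q * z * (q * z - 1) +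
      q * (q - 1) * z ^ 2 * ((q * z - 1) * D' z + (q * z) ^ n * Φ z - 1)) * e3

theorem hur {F G1 G2 G3 : ℂ → ℂ} (hF : Differentiable ℂ F) (h1 : Differentiable ℂ G1)
    (h2 : Differentiable ℂ G2) (h3 : Differentiable ℂ G3) {c : ℂ} {ε : ℝ} (hε : 0 < ε)
    (hc : F c = 0) (hs : ∀ z ∈ Metric.sphere c ε, F z ≠ 0) (hq : 1 ≤ (q : ℝ))
    (hb : ∀ z ∈ Metric.closedBall c ε, 1 < q * ‖z‖ ^ 2) (f : ℕ → ℂ → ℂ)
    (hf : ∀ n z, f n z = F z * ((q * z) ^ n) ^ 2 + G1 z * (q * z) ^ n + G2 z + G3 z * q ^ n) :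
    ∃ n, (∃ z ∈ Metric.closedBall c ε, f n z = 0) ∧ ∃ z, f n z ≠ 0 := by
  have hK := isCompact_closedBall c ε
  obtain ⟨m, m0, hm⟩ := (isCompact_sphere c ε).exists_forall_le' (f := fun z => ‖F z‖)
    hF.continuous.norm.continuousOn (a := 0) fun z hz => norm_pos_iff.2 (hs z hz)
  obtain ⟨ν, ν1, hν⟩ := hK.exists_forall_le' (f := fun z => min (q * ‖z‖ ^ 2) (q * ‖z‖))
    (by fun_prop) (a := 1) fun z hz => lt_min (hb z hz) (by
      have := hb z hz
      by_contra h
      have h4 : 0 ≤ q * ‖z‖ := by positivity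
      nlinarith [mul_self_le_mul_self h4 (not_lt.1 h), sq_nonneg ‖z‖])
  obtain ⟨M, hM⟩ := hK.exists_bound_of_continuousOn
    (f := fun z => (G1 z, G2 z, G3 z))
    (h1.continuous.prodMk (h2.continuous.prodMk h3.continuous)).continuousOn
  obtain ⟨n, hn⟩ := pow_unbounded_of_one_lt (9 * M / m) ν1
  rw [div_lt_iff₀ m0] at hn
  have key : ∀ z ∈ Metric.closedBall c ε, 1 ≤ ‖(q * z) ^ n‖ ∧
      ‖f n z - F z * ((q * z) ^ n) ^ 2‖ ≤ m / 3 * ‖(q * z) ^ n‖ ^ 2 := fun z hz => by
    obtain ⟨a1, a2⟩ := le_min_iff.1 (hν z hz)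
    have a3 : ν ^ n ≤ ‖(q * z) ^ n‖ := by
      rw [norm_pow, norm_mul, Complex.norm_natCast]
      exact pow_le_pow_left₀ (by linarith) a2 n
    have a4 : ν ^ n * q ^ n ≤ ‖(q * z) ^ n‖ ^ 2 := by
      rw [norm_pow, norm_mul, Complex.norm_natCast, ← pow_mul, mul_comm n, pow_mul, ← mul_pow]
      exact pow_le_pow_left₀ (by positivity) (by nlinarith) n
    have a5 : 1 ≤ ‖(q * z) ^ n‖ := (one_le_pow₀ ν1.le).trans a3
    have a6 := hM z hz
    simp only [Prod.norm_mk, max_le_iff] at a6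
    refine ⟨a5, ?_⟩
    rw [show f n z - F z * ((q * z) ^ n) ^ 2 = G1 z * (q * z) ^ n + G2 z + G3 z * q ^ n by
      rw [hf]; ring]
    refine norm_add₃_le.trans ?_
    rw [norm_mul (G1 z), norm_mul (G3 z), norm_pow (q : ℂ), Complex.norm_natCast]
    generalize ‖(q * z) ^ n‖ = Y at *
    have a7 : (0 : ℝ) ≤ q ^ n := by positivity
    have b1 : 9 * M ≤ Y * m := hn.le.trans (mul_le_mul_of_nonneg_right a3 m0.le)
    have b2 : ‖G1 z‖ * Y ≤ M * Y := mul_le_mul_of_nonneg_right a6.1 (by linarith)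
    have b3 : ‖G3 z‖ * q ^ n ≤ M * q ^ n := mul_le_mul_of_nonneg_right a6.2.2 a7
    have b4 : 9 * M * Y ≤ Y * m * Y := mul_le_mul_of_nonneg_right b1 (by linarith)
    have b5 : Y * m * 1 ≤ Y * m * Y := mul_le_mul_of_nonneg_left a5 (by positivity)
    have b6 : 9 * M * q ^ n ≤ ν ^ n * m * q ^ n := mul_le_mul_of_nonneg_right hn.le a7
    have b7 : m * (ν ^ n * q ^ n) ≤ m * Y ^ 2 := mul_le_mul_of_nonneg_left a4 m0.le
    nlinarith [a6.2.1]
  have low : ∀ z ∈ Metric.sphere c ε, 2 * m / 3 * ‖(q * z) ^ n‖ ^ 2 ≤ ‖f n z‖ := fun z hz => by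
    have a1 := (key z (Metric.sphere_subset_closedBall hz)).2
    have a2 := norm_sub_norm_le (F z * ((q * z) ^ n) ^ 2) (f n z)
    rw [norm_sub_rev, norm_mul, norm_pow _ 2] at a2
    nlinarith [mul_le_mul_of_nonneg_right (hm z hz) (sq_nonneg ‖(q * z) ^ n‖)]
  refine ⟨n, ?_, ?_⟩
  · by_contra! h0
    have hd : Differentiable ℂ (f n) := by
      rw [funext (hf n)]
      fun_prop
    have a1 : ‖((q * c) ^ n) ^ 2 / f n c‖ ≤ 3 / (2 * m) := by
      refine Complex.norm_le_of_forall_mem_frontier_norm_le (U := Metric.ball c ε)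
        (f := fun z => ((q * z) ^ n) ^ 2 / f n z) Metric.isBounded_ball
        (DifferentiableOn.diffContOnCl ?_) (fun z hz => ?_)
        (subset_closure (Metric.mem_ball_self hε))
      · rw [closure_ball c hε.ne']
        exact DifferentiableOn.div (by fun_prop) hd.differentiableOn h0
      · rw [frontier_ball c hε.ne'] at hz
        have a2 := low z hz
        rw [norm_div, norm_pow _ 2, div_le_div_iff₀
          (norm_pos_iff.2 (h0 z (Metric.sphere_subset_closedBall hz))) (by positivity)]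
        linarith
    have hc' := Metric.mem_closedBall_self (x := c) hε.le
    obtain ⟨a2, a3⟩ := key c hc'
    rw [hc, zero_mul, sub_zero] at a3
    rw [norm_div, norm_pow _ 2, div_le_div_iff₀ (norm_pos_iff.2 (h0 c hc')) (by positivity)] at a1
    nlinarith [mul_pos m0 (pow_pos (one_pos.trans_le a2) 2)]
  · obtain ⟨z, hz⟩ := NormedSpace.sphere_nonempty (x := c).2 hε.le
    have a1 := (key z (Metric.sphere_subset_closedBall hz)).1
    exact ⟨z, norm_pos_iff.1 (lt_of_lt_of_le (by positivity) (low z hz))⟩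

theorem Rl.mem (h : Rl q k D U) {z z' : ℂ} (h1 : U z = 0) (h2 : U z' ≠ 0) :
    z ∈ roots (q + 1) := by
  obtain ⟨V, _, G, r, a1, a2, -, -, a5⟩ := h
  let _ : LinearOrder V := LinearOrder.lift' _ (Fintype.equivFin V).injective
  refine ⟨V, inferInstance, inferInstance, G, ?_, a1, a2, ?_⟩
  · by_contra h3
    have : Subsingleton V := Fintype.card_le_one_iff_subsingleton.1 (by omega)
    let _ : Unique V := uniqueOfSubsingleton r
    exact h2 (by rw [a5]; simp)
  · have h3 := two_wiener G z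
    rw [← a5, h1] at h3
    exact (mul_eq_zero.1 h3).resolve_left two_ne_zero

theorem mem_one (hq : 2 ≤ q) {a b K p : ℕ} (h : a + b = q ^ K) (ha : 0 < a) (hp : 0 < p) {c : ℂ}
    (h1 : 1 < q * ‖c‖ ^ 2) (h2 : a + b * (q * c) ^ p = 0) : c ∈ closure (roots (q + 1)) := by
  have hq' : (2 : ℝ) ≤ q := by exact_mod_cast hq
  have q0 : (q : ℂ) ≠ 0 := Nat.cast_ne_zero.2 (by omega)
  have q1 : (q : ℂ) ≠ 1 := Nat.cast_ne_one.2 (by omega)
  refine Metric.mem_closure_iff.2 fun ε hε => ?_
  obtain ⟨δ, δ0, hδ⟩ := Metric.nhds_basis_closedBall.mem_iff.1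
    ((isOpen_lt (f := fun _ => (1 : ℝ)) (g := fun z : ℂ => q * ‖z‖ ^ 2) (by fun_prop)
      (by fun_prop)).mem_nhds h1)
  have hZ : {z : ℂ | a + b * (q * z) ^ p = 0}.Finite := by
    have h3 : (a : Polynomial ℂ) + (b : Polynomial ℂ) * ((q : Polynomial ℂ) * Polynomial.X) ^ p ≠
        0 := fun h3 => by
      have := congrArg (Polynomial.eval 0) h3
      simp [hp.ne', ha.ne'] at this
    simpa using Polynomial.finite_setOfPred_isRoot h3
  obtain ⟨η, ⟨η0, hη⟩, hn⟩ := (Set.Ioo_infinite (lt_min hε δ0)).exists_notMem_finite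
    (hZ.image (Dist.dist · c))
  rw [lt_min_iff] at hη
  have hb : ∀ z ∈ Metric.closedBall c η, 1 < q * ‖z‖ ^ 2 := fun z hz =>
    hδ (Metric.closedBall_subset_closedBall hη.2.le hz)
  obtain ⟨G, hG, hT⟩ := (Ex.two (by omega) p K a b h).tower
  choose D U hR e using hT
  have hs : ∀ z ∈ Metric.sphere c η, (1 - q) * q * (q - 1) * z ^ 2 *
      (z ^ K * (q * z) * (a + b * (q * z) ^ p)) ^ 2 ≠ 0 := fun z hz => by
    have z0 : z ≠ 0 := fun h0 => by
      have := hb z (Metric.sphere_subset_closedBall hz)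
      rw [h0, norm_zero] at this
      linarith
    have z1 : (a : ℂ) + b * (q * z) ^ p ≠ 0 := fun h0 => hn ⟨z, h0, hz⟩
    have := sub_ne_zero.2 q1
    have := sub_ne_zero.2 q1.symm
    positivity
  obtain ⟨n, ⟨z, hz, h4⟩, z', h5⟩ := hur (by fun_prop) (by fun_prop) (by fun_prop) hG η0
    (by rw [h2]; ring) hs (by linarith) hb _ fun n z => (e n z).2
  have h6 := hb z hz
  refine ⟨z, (hR n).mem ?_ (right_ne_zero_of_mul h5), ?_⟩
  · have h7 : ‖q * z‖ ^ 2 = q * (q * ‖z‖ ^ 2) := by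
      rw [norm_mul, Complex.norm_natCast]
      ring
    refine (mul_eq_zero.1 h4).resolve_left (mul_ne_zero (mul_ne_zero (sub_ne_zero.2 fun h8 => ?_)
      (sub_ne_zero.2 q1.symm)) (pow_ne_zero _ (sub_ne_zero.2 fun h8 => ?_)))
    · rw [← norm_pow, h8, Complex.norm_natCast] at h7
      nlinarith
    · rw [h8, norm_one] at h7
      nlinarith
  · rw [_root_.dist_comm]
    exact (Metric.mem_closedBall.1 hz).trans_lt hη.1

open Filter Topology in
theorem mem_two (hq : 2 ≤ q) {p : ℕ} (hp : 0 < p) {c : ℂ} {t : ℝ} (ht : 0 < t)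
    (h1 : 1 < q * ‖c‖ ^ 2) (h2 : (q * c) ^ p = -t) : c ∈ closure (roots (q + 1)) := by
  have hq' : (1 : ℝ) < q := by exact_mod_cast hq
  have u0 : 0 < t / (1 + t) := by positivity
  have u1 : t / (1 + t) < 1 := by rw [div_lt_one (by positivity)]; linarith
  have t1 := (tendsto_nat_floor_mul_div_atTop u0.le).comp (tendsto_pow_atTop_atTop_of_one_lt hq')
  let φ : ℝ → ℂ := fun u => ((u / (1 - u) / t) ^ (p⁻¹ : ℝ) : ℝ) * c
  have t2 : ContinuousAt φ (t / (1 + t)) := by
    refine ContinuousAt.mul (Complex.continuous_ofReal.continuousAt.comp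
      (ContinuousAt.rpow_const ?_ (Or.inr (by positivity)))) continuousAt_const
    exact (continuousAt_id.div (by fun_prop) (by linarith)).div_const t
  have t3 : φ (t / (1 + t)) = c := by
    have : t / (1 + t) / (1 - t / (1 + t)) / t = 1 := by
      field_simp
      ring
    simp [φ, this]
  have t4 := t2.tendsto.comp t1
  rw [t3] at t4
  refine isClosed_closure.mem_of_tendsto t4 ?_
  have t5 : Tendsto (fun z : ℂ => q * ‖z‖ ^ 2) (𝓝 c) (𝓝 (q * ‖c‖ ^ 2)) :=
    Continuous.tendsto (by fun_prop) c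
  filter_upwards [t1.eventually (lt_mem_nhds u0), t1.eventually (gt_mem_nhds u1),
    (t5.comp t4).eventually (lt_mem_nhds h1)] with K a1 a2 a3
  simp only [Function.comp] at a1 a2 a3 ⊢
  generalize ⌊t / (1 + t) * (q : ℝ) ^ K⌋₊ = a at *
  have Q0 : (0 : ℝ) < q ^ K := by positivity
  have a4 : a < q ^ K := by exact_mod_cast (div_lt_one Q0).1 a2
  obtain ⟨b, hb⟩ := Nat.exists_eq_add_of_le a4.le
  refine mem_one hq hb.symm (by exact_mod_cast (div_pos_iff_of_pos_right Q0).1 a1) hp a3 ?_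
  have hb' : (q : ℝ) ^ K = a + b := by exact_mod_cast hb
  have b0 : (0 : ℝ) < b := by exact_mod_cast (by omega : 0 < b)
  have a5 : (a : ℝ) / q ^ K / (1 - a / q ^ K) / t = a / (b * t) := by
    rw [hb'] at Q0 ⊢
    rw [one_sub_div Q0.ne', add_sub_cancel_left]
    field_simp
  simp only [φ]
  rw [a5, mul_left_comm, mul_pow, h2, ← Complex.ofReal_pow,
    Real.rpow_inv_natCast_pow (by positivity) hp.ne']
  have : (b : ℂ) ≠ 0 := by exact_mod_cast b0.ne'
  have : (t : ℂ) ≠ 0 := by exact_mod_cast ht.ne'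
  push_cast
  field_simp
  ring

open Filter Topology Real in
theorem mem_three (hq : 2 ≤ q) {c : ℂ} (h1 : 1 < q * ‖c‖ ^ 2) : c ∈ closure (roots (q + 1)) := by
  have u0 : 0 ≤ (c.arg + 2 * π) / (2 * π) := by
    have := c.neg_pi_lt_arg
    have := pi_pos
    exact div_nonneg (by linarith) (by positivity)
  have t1 := (tendsto_nat_floor_mul_div_atTop u0).comp tendsto_natCast_atTop_atTop
  have t2 := (t1.const_mul (2 * π)).add (tendsto_const_div_atTop_nhds_zero_nat π)
  let φ : ℝ → ℂ := fun u => ‖c‖ * Complex.exp (u * Complex.I)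
  have t3 := (Continuous.tendsto (f := φ) (by fun_prop) _).comp t2
  have t4 : φ (2 * π * ((c.arg + 2 * π) / (2 * π)) + 0) = c := by
    rw [add_zero, mul_div_cancel₀ _ (by positivity)]
    simp only [φ]
    push_cast
    rw [add_mul, Complex.exp_add, Complex.exp_two_pi_mul_I, mul_one, Complex.norm_mul_exp_arg_mul_I]
  rw [t4] at t3
  refine isClosed_closure.mem_of_tendsto t3 ?_
  filter_upwards [eventually_gt_atTop 0] with p hp
  simp only [Function.comp]
  generalize ⌊(c.arg + 2 * π) / (2 * π) * (p : ℝ)⌋₊ = j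
  have c0 : 0 < ‖c‖ := norm_pos_iff.2 fun h => by
    rw [h, norm_zero] at h1
    linarith
  refine mem_two hq hp (t := (q * ‖c‖) ^ p) (by positivity) ?_ ?_
  · simpa only [φ, norm_mul, Complex.norm_exp_ofReal_mul_I, mul_one, Complex.norm_real,
      norm_norm] using h1
  · have : (p : ℂ) ≠ 0 := Nat.cast_ne_zero.2 hp.ne'
    simp only [φ]
    rw [← mul_assoc, mul_pow, ← Complex.exp_nat_mul,
      show (p : ℂ) * ((2 * π * (j / p) + π / p : ℝ) * Complex.I) =
        j * (2 * π * Complex.I) + π * Complex.I by push_cast; field_simp,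
      Complex.exp_add, Complex.exp_nat_mul_two_pi_mul_I, Complex.exp_pi_mul_I]
    push_cast
    ring

open Filter Topology in
theorem mem_four (hq : 2 ≤ q) {c : ℂ} (h1 : 1 ≤ q * ‖c‖ ^ 2) : c ∈ closure (roots (q + 1)) := by
  have t1 : Tendsto (fun s : ℝ => (s : ℂ) * c) (𝓝[>] 1) (𝓝 c) := by
    have : Tendsto (fun s : ℝ => (s : ℂ) * c) (𝓝 1) (𝓝 (((1 : ℝ) : ℂ) * c)) :=
      Continuous.tendsto (by fun_prop) 1
    simpa using this.mono_left nhdsWithin_le_nhds
  refine isClosed_closure.mem_of_tendsto t1 ?_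
  filter_upwards [self_mem_nhdsWithin] with s hs
  refine mem_three hq ?_
  have hs' : 1 < s := hs
  rw [norm_mul, Complex.norm_real, Real.norm_of_nonneg (by linarith)]
  nlinarith [one_lt_pow₀ hs' two_ne_zero]

section upper

variable {V : Type} [Fintype V] {G : SimpleGraph V}

theorem exists_par (hG : G.IsTree) (r : V) : ∃ π : V → V, π r = r ∧
    (∀ v, v ≠ r → G.Adj v (π v) ∧ G.dist r (π v) < G.dist r v) ∧
      ∀ u v, G.Adj u v → π u = v ∨ π v = u := by
  classical
  have key : ∀ v, ∃ w, (v = r → w = r) ∧ (v ≠ r → G.Adj v w ∧ G.dist r w < G.dist r v) := by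
    intro v
    obtain ⟨p, hp⟩ := hG.1.exists_walk_length_eq_dist v r
    cases p with
    | nil => exact ⟨_, id, fun h => (h rfl).elim⟩
    | @cons _ w _ h p =>
      by_cases h0 : v = r
      · exact ⟨r, fun _ => rfl, fun h => (h h0).elim⟩
      refine ⟨w, fun h => (h0 h).elim, fun _ => ⟨h, ?_⟩⟩
      have := G.dist_le p
      rw [Walk.length_cons] at hp
      rw [G.dist_comm (u := r), G.dist_comm (u := r)]
      omega
  choose π h1 h2 using key
  refine ⟨π, h1 r rfl, h2, fun u v h => ?_⟩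
  have h3 : (univ.erase r).image (fun v => s(v, π v)) = G.edgeFinset := by
    refine eq_of_subset_of_card_le (fun e he => ?_) ?_
    · obtain ⟨v, hv, rfl⟩ := mem_image.1 he
      exact mem_edgeFinset.2 (h2 v (ne_of_mem_erase hv)).1
    · rw [card_image_of_injOn, card_erase_of_mem (mem_univ r), card_univ, ← hG.card_edgeFinset]
      · simp
      · intro a ha b hb e
        rcases Sym2.eq_iff.1 e with e | e
        · exact e.1
        · have a1 := (h2 a (ne_of_mem_erase ha)).2
          have a2 := (h2 b (ne_of_mem_erase hb)).2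
          rw [e.2] at a1
          rw [← e.1] at a2
          omega
  obtain ⟨w, -, e⟩ := mem_image.1 (h3 ▸ mem_edgeFinset.2 h : s(u, v) ∈ _)
  rcases Sym2.eq_iff.1 e with e | e
  · exact Or.inl (e.1 ▸ e.2)
  · exact Or.inr (e.1 ▸ e.2)

omit [Fintype V] in
theorem exists_meet {π : V → V} (h : ∀ u v, G.Adj u v → π u = v ∨ π v = u) {u v : V}
    (p : G.Walk u v) : ∃ a b, a + b ≤ p.length ∧ π^[a] u = π^[b] v := by
  induction p with
  | nil => exact ⟨0, 0, le_rfl, rfl⟩
  | cons e p ih =>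
    obtain ⟨a, b, h1, h2⟩ := ih
    rw [Walk.length_cons]
    rcases h _ _ e with e | e
    · exact ⟨a + 1, b, by omega, by rw [Function.iterate_succ_apply, e, h2]⟩
    · rcases a with _ | a
      · exact ⟨0, b + 1, by omega, by rw [Function.iterate_succ_apply', ← h2]; exact e.symm⟩
      · exact ⟨a, b, by omega, by rw [← h2, Function.iterate_succ_apply, e]⟩

theorem fib_le [DecidableEq V] (hq : 2 ≤ q) (hd : ∀ v, (G.neighborSet v).ncard ≤ q + 1)
    {π : V → V} {r : V} (h0 : π r = r)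
    (h : ∀ v, v ≠ r → G.Adj v (π v) ∧ G.dist r (π v) < G.dist r v) (b : ℕ) (w : V) :
    #{v | π^[b] v = w} ≤ 4 * q ^ b := by
  have h1 : ∀ w, #{x | x ≠ r ∧ π x = w} ≤ q + 1 ∧ (w ≠ r → #{x | x ≠ r ∧ π x = w} ≤ q) := by
    intro w
    have a1 : ∀ s : Finset V, (∀ x ∈ s, G.Adj w x) → #s ≤ q + 1 := fun s hs =>
      (Set.ncard_coe_finset s ▸ Set.ncard_le_ncard hs).trans (hd w)
    have a2 : ∀ x ∈ ({x | x ≠ r ∧ π x = w} : Finset V), G.Adj w x := fun x hx => by
      obtain ⟨b1, b2⟩ := (mem_filter.1 hx).2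
      exact b2 ▸ (h x b1).1.symm
    refine ⟨a1 _ a2, fun hw => ?_⟩
    have a3 := a1 _ (forall_mem_insert _ _ _ |>.2 ⟨(h w hw).1, a2⟩)
    rw [card_insert_of_notMem] at a3
    · omega
    · intro hx
      obtain ⟨b1, b2⟩ := (mem_filter.1 hx).2
      have a4 := (h _ b1).2
      have a5 := (h w hw).2
      rw [b2] at a4
      omega
  have h2 : (∀ w, w ≠ r → #{v | π^[b] v = w} ≤ q ^ b) ∧ #{v | π^[b] v = r} + 3 ≤ 4 * q ^ b := by
    induction b with
    | zero =>
      have a1 : ∀ w : V, #{v | π^[0] v = w} ≤ 1 := fun w => card_le_one.2 fun x hx y hy =>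
        (mem_filter.1 hx).2.trans (mem_filter.1 hy).2.symm
      exact ⟨fun w _ => a1 w, Nat.add_le_add_right (a1 r) 3⟩
    | succ b ih =>
      have a1 : ∀ w, #{v | π^[b] v ≠ r ∧ π^[b + 1] v = w} ≤ q ^ b * #{x | x ≠ r ∧ π x = w} :=
        fun w => card_le_mul_card_image_of_maps_to (f := π^[b]) (fun v hv => by
          simpa [Function.iterate_succ_apply'] using hv) _ fun x hx =>
            (card_le_card fun v hv => by simp [(mem_filter.1 hv).2]).trans
              (ih.1 x (mem_filter.1 hx).2.1)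
      refine ⟨fun w hw => ?_, ?_⟩
      · refine le_trans (card_le_card fun v hv => ?_)
          ((a1 w).trans (Nat.mul_le_mul_left _ ((h1 w).2 hw)))
        have a2 := (mem_filter.1 hv).2
        refine mem_filter.2 ⟨mem_univ _, fun a3 => hw ?_, a2⟩
        rw [← a2, Function.iterate_succ_apply', a3, h0]
      · have a2 := (a1 r).trans (Nat.mul_le_mul_left _ (h1 r).1)
        have a3 : #{v | π^[b + 1] v = r} ≤ #{v | π^[b] v = r} +
            #{v | π^[b] v ≠ r ∧ π^[b + 1] v = r} := by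
          refine le_trans (card_le_card fun v hv => ?_) (card_union_le _ _)
          have a4 := (mem_filter.1 hv).2
          exact mem_union.2 ((em _).imp (fun a5 => mem_filter.2 ⟨mem_univ _, a5⟩)
            fun a5 => mem_filter.2 ⟨mem_univ _, a5, a4⟩)
        have a4 := Nat.mul_le_mul_left (q ^ b) hq
        rw [pow_succ]
        nlinarith [ih.2]
  by_cases hw : w = r
  · rw [hw]
    omega
  · have := h2.1 w hw
    omega

theorem sum_le (hG : G.IsTree) (hq : 2 ≤ q) (hd : ∀ v, (G.neighborSet v).ncard ≤ q + 1) {s t : ℝ}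
    (s0 : 0 ≤ s) (t0 : 0 ≤ t) (t1 : t < 1) (hs : q * s ^ 2 ≤ t ^ 2) :
    ∑ u, ∑ v, s ^ G.dist u v ≤ 4 * Fintype.card V / (1 - t) ^ 2 := by
  classical
  have hq' : (2 : ℝ) ≤ q := by exact_mod_cast hq
  have st : s ≤ t := by nlinarith [sq_nonneg s]
  obtain ⟨r⟩ := hG.1.nonempty
  obtain ⟨π, h0, h1, h2⟩ := exists_par hG r
  have hf := fib_le hq hd h0 h1
  choose a b h3 h4 using fun p : V × V =>
    exists_meet h2 (hG.1.exists_walk_length_eq_dist p.1 p.2).choose
  simp only [(hG.1.exists_walk_length_eq_dist _ _).choose_spec] at h3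
  let N := univ.sup (fun p : V × V => G.dist p.1 p.2) + 1
  have hN : ∀ p ∈ (univ : Finset (V × V)), (a p, b p) ∈ range N ×ˢ range N := fun p hp => by
    have := le_sup (f := fun p : V × V => G.dist p.1 p.2) hp
    have := h3 p
    simp only [mem_product, mem_range]
    omega
  have h5 : ∀ i j, s ^ (i + j) * #{p : V × V | π^[i] p.1 = π^[j] p.2} ≤
      4 * Fintype.card V * (t ^ i * t ^ j) := by
    have key : ∀ i j : ℕ, s ^ (i + j + j) * (Fintype.card V * (4 * q ^ j) : ℕ) ≤
        4 * Fintype.card V * (t ^ (i + j) * t ^ j) := fun i j => by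
      have a1 := mul_le_mul (pow_le_pow_left₀ s0 st i) (pow_le_pow_left₀ (by positivity) hs j)
        (by positivity) (by positivity)
      have a2 := mul_le_mul_of_nonneg_left a1 (by positivity : (0 : ℝ) ≤ 4 * Fintype.card V)
      push_cast
      exact (Eq.le (by ring)).trans (a2.trans (Eq.le (by ring)))
    intro i j
    rcases le_total j i with h | h
    · obtain ⟨i, rfl⟩ := Nat.exists_eq_add_of_le' h
      refine le_trans (mul_le_mul_of_nonneg_left (Nat.cast_le.2 ?_) (by positivity)) (key i j)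
      rw [mul_comm, ← card_univ]
      refine card_le_mul_card_image_of_maps_to (f := Prod.fst) (fun _ _ => mem_univ _) _
        fun u _ => le_trans ?_ (hf j (π^[i + j] u))
      refine card_le_card_of_injOn Prod.snd (fun p hp => ?_) fun p hp p' hp' e => ?_
      · simp only [coe_filter, mem_filter, mem_univ, true_and, Set.mem_ofPred_eq] at hp ⊢
        rw [← hp.1, hp.2]
      · exact Prod.ext ((mem_filter.1 hp).2.trans (mem_filter.1 hp').2.symm) e
    · obtain ⟨j, rfl⟩ := Nat.exists_eq_add_of_le' h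
      rw [add_comm i, mul_comm (t ^ i)]
      refine le_trans (mul_le_mul_of_nonneg_left (Nat.cast_le.2 ?_) (by positivity)) (key j i)
      rw [mul_comm, ← card_univ]
      refine card_le_mul_card_image_of_maps_to (f := Prod.snd) (fun _ _ => mem_univ _) _
        fun u _ => le_trans ?_ (hf i (π^[j + i] u))
      refine card_le_card_of_injOn Prod.fst (fun p hp => ?_) fun p hp p' hp' e => ?_
      · simp only [coe_filter, mem_filter, mem_univ, true_and, Set.mem_ofPred_eq] at hp ⊢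
        rw [hp.1, hp.2]
      · exact Prod.ext e ((mem_filter.1 hp).2.trans (mem_filter.1 hp').2.symm)
  have h6 : ∑ i ∈ range N, t ^ i ≤ 1 / (1 - t) := by
    rw [le_div_iff₀ (by linarith), geom_sum_mul_neg]
    linarith [pow_nonneg t0 N]
  calc ∑ u, ∑ v, s ^ G.dist u v = ∑ p : V × V, s ^ G.dist p.1 p.2 :=
        (Fintype.sum_prod_type' _).symm
    _ ≤ ∑ p : V × V, s ^ (a p + b p) :=
        sum_le_sum fun p _ => pow_le_pow_of_le_one s0 (by linarith) (h3 p)
    _ = ∑ x ∈ range N ×ˢ range N, ∑ p with (a p, b p) = x, s ^ (a p + b p) :=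
        (sum_fiberwise_of_maps_to hN _).symm
    _ ≤ ∑ x ∈ range N ×ˢ range N, 4 * Fintype.card V * (t ^ x.1 * t ^ x.2) := by
        refine sum_le_sum fun x _ => le_trans ?_ (h5 x.1 x.2)
        rw [sum_congr rfl (g := fun _ => s ^ (x.1 + x.2)) fun p hp => by
          rw [← (mem_filter.1 hp).2], sum_const, nsmul_eq_mul, mul_comm]
        refine mul_le_mul_of_nonneg_left (Nat.cast_le.2 (card_le_card fun p hp => ?_))
          (by positivity)
        rw [← (mem_filter.1 hp).2]
        exact mem_filter.2 ⟨mem_univ _, h4 p⟩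
    _ = 4 * Fintype.card V * (∑ i ∈ range N, t ^ i) ^ 2 := by
        rw [← mul_sum, sq, sum_mul_sum, sum_product]
    _ ≤ 4 * Fintype.card V * (1 / (1 - t)) ^ 2 := by gcongr
    _ = _ := by rw [div_pow, one_pow, mul_one_div]

end upper

theorem pow_sub_le {z w : ℂ} {a s : ℝ} (h1 : ‖z‖ ≤ a) (h2 : ‖w‖ ≤ s) (h3 : a ≤ s) (d : ℕ) :
    (s - a) * ‖z ^ d - w ^ d‖ ≤ ‖z - w‖ * s ^ d := by
  have a0 := (norm_nonneg z).trans h1
  induction d with
  | zero => simp
  | succ d ih =>
    have a1 : ‖z ^ (d + 1) - w ^ (d + 1)‖ ≤ a * ‖z ^ d - w ^ d‖ + ‖z - w‖ * s ^ d := by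
      rw [show z ^ (d + 1) - w ^ (d + 1) = z * (z ^ d - w ^ d) + (z - w) * w ^ d by ring]
      refine (norm_add_le _ _).trans ?_
      rw [norm_mul, norm_mul, norm_pow]
      gcongr
    rw [pow_succ s]
    nlinarith [mul_le_mul_of_nonneg_left a1 (sub_nonneg.2 h3), mul_le_mul_of_nonneg_left ih a0]

/-- No positive real number below the threshold is a limit of Wiener roots. -/
theorem not_mem (hq : 2 ≤ q) {r : ℝ} (r0 : 0 < r) (h : q * r ^ 2 < 1) :
    (r : ℂ) ∉ closure (roots (q + 1)) := by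
  obtain ⟨s, hs, s1⟩ : ∃ s, r < s ∧ q * s ^ 2 < 1 :=
    (((continuous_const.mul (continuous_pow 2)).tendsto r).eventually
      (gt_mem_nhds h)).exists_gt
  obtain ⟨t, t2, t1⟩ := exists_between (Real.sqrt_lt_sqrt (by positivity) s1)
  rw [Real.sqrt_one] at t1
  have t0 := (Real.sqrt_nonneg _).trans t2.le
  have t3 := (Real.sqrt_le_left t0).1 t2.le
  intro hr
  obtain ⟨z, ⟨V, _, _, G, a1, a2, a3, a4⟩, hz⟩ := Metric.mem_closure_iff.1 hr
    (min ((s - r) / 2) ((s - r) / 2 * r * (1 - t) ^ 2 / 4))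
    (lt_min (by linarith) (by have := sub_pos.2 hs; have := sub_pos.2 t1; positivity))
  rw [lt_min_iff, dist_eq_norm'] at hz
  have n0 : (0 : ℝ) < Fintype.card V := by exact_mod_cast (by omega : 0 < Fintype.card V)
  have b1 := sum_le a2 hq a3 (r0.trans hs).le t0 t1 t3
  have b2 : ‖z‖ ≤ (r + s) / 2 := by
    have := norm_le_norm_sub_add z r
    rw [Complex.norm_real, Real.norm_of_nonneg r0.le] at this
    linarith [hz.1]
  have b3 : Fintype.card V * (1 + r) ≤ ∑ u, ∑ v, r ^ G.dist u v := by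
    rw [← card_univ, ← nsmul_eq_mul, ← sum_const]
    refine sum_le_sum fun u _ => ?_
    have := Fintype.one_lt_card_iff_nontrivial.1 a1
    obtain ⟨w, hw⟩ := a2.1.preconnected.exists_adj_of_nontrivial u
    refine le_trans ?_ (sum_le_sum_of_subset_of_nonneg (subset_univ {u, w})
      fun _ _ _ => by positivity)
    rw [sum_pair hw.ne, dist_self, dist_eq_one_iff_adj.2 hw, pow_zero, pow_one]
  have b4 := two_wiener G z
  rw [a4, mul_zero, eq_comm, sub_eq_zero] at b4
  have b5 : ‖∑ u, ∑ v, (z ^ G.dist u v - (r : ℂ) ^ G.dist u v)‖ =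
      ∑ u, ∑ v, r ^ G.dist u v - Fintype.card V := by
    simp only [sum_sub_distrib]
    rw [b4, norm_sub_rev, ← Real.norm_of_nonneg (by nlinarith :
      0 ≤ ∑ u, ∑ v, r ^ G.dist u v - (Fintype.card V : ℝ)), ← Complex.norm_real]
    push_cast
    rfl
  have b6 : (s - (r + s) / 2) * ‖∑ u, ∑ v, (z ^ G.dist u v - (r : ℂ) ^ G.dist u v)‖ ≤
      ‖z - r‖ * ∑ u, ∑ v, s ^ G.dist u v := by
    refine (mul_le_mul_of_nonneg_left ((norm_sum_le _ _).trans
      (sum_le_sum fun u _ => norm_sum_le _ _)) (by linarith)).trans ?_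
    simp only [mul_sum]
    exact sum_le_sum fun u _ => sum_le_sum fun v _ => pow_sub_le b2
      (by rw [Complex.norm_real, Real.norm_of_nonneg r0.le]; exact hs.le) (by linarith) _
  have b7 := b6.trans (mul_le_mul_of_nonneg_left b1 (norm_nonneg _))
  have t4 : 0 < (1 - t) ^ 2 := pow_pos (sub_pos.2 t1) 2
  rw [b5, ← mul_div_assoc, le_div_iff₀ t4] at b7
  have b8 : (s - (r + s) / 2) * (Fintype.card V * r) * (1 - t) ^ 2 ≤
      ‖z - r‖ * (4 * Fintype.card V) := by
    refine le_trans ?_ b7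
    have : 0 ≤ s - (r + s) / 2 := by linarith
    gcongr
    linarith
  nlinarith [mul_lt_mul_of_pos_right hz.2 n0]

/-- The Wiener roots of trees of maximum degree at most `Δ` are dense outside the disc of
radius `ρ` exactly when `ρ` is at least `1 / √(Δ - 1)`. -/
theorem result (Δ : ℕ) (hΔ : 3 ≤ Δ) (ρ : ℝ) :
    {z : ℂ | ρ ≤ ‖z‖} ⊆ closure (roots Δ) ↔ 1 / √((Δ : ℝ) - 1) ≤ ρ := by
  obtain ⟨q, rfl⟩ := Nat.exists_eq_add_of_lt (show 0 < Δ by omega)
  rw [zero_add] at *
  have hq : 2 ≤ q := by omega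
  have q0 : (0 : ℝ) < q := by exact_mod_cast (by omega : 0 < q)
  have e : ∀ x : ℝ, 0 ≤ x → (1 / √(q : ℝ) ≤ x ↔ 1 ≤ q * x ^ 2) := fun x hx => by
    rw [one_div, ← Real.sqrt_inv, Real.sqrt_le_left hx, inv_le_iff_one_le_mul₀' q0]
  rw [Nat.cast_add_one, add_sub_cancel_right]
  refine ⟨fun h => not_lt.1 fun h1 => ?_,
    fun h z hz => mem_four hq ((e _ (norm_nonneg z)).1 (h.trans hz))⟩
  obtain ⟨r, h2, h3⟩ := exists_between (max_lt h1 (by positivity : (0 : ℝ) < 1 / √(q : ℝ)))
  rw [max_lt_iff] at h2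
  refine not_mem hq h2.2 (not_le.1 fun h4 => h3.not_ge ((e r h2.2.le).2 h4)) (h ?_)
  show ρ ≤ ‖(r : ℂ)‖
  rw [Complex.norm_real, Real.norm_of_nonneg h2.2.le]
  exact h2.1.le

end Pool.Agent.Results.MP_dc0d33_co.BoundedDegree
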